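import Pool.Agent.V11110.AF9

/-!
# MP_af3eb4_an: the radii of the circles in the upper semi-Fredholm spectrum can accumulate

For `B(z) = z²` there is a weight `w` in the disc algebra such that the set of radii `r` with
`r𝕋 ⊂ σ_usf(T)` has a positive accumulation point.

Proof.  The periodic orbits `P_m` with symbols `min(v₂(i), m) mod 2` (approximants of the
period-doubling sequence) stay away from the wrong preimages `-P_n` except near the rare indices
`i` divisible by a large power of two.  With `H` a sum of bumps centred at the points of the sets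
`-P_n` at scales `2^{-2^k}`, `W = 1/(1+H)` lies in the disc algebra, vanishes on all `-P_n` and
has geometric mean at least `2⁻⁸` on every `P_m`.  Since all the wrong preimages of `P_m` are zeros
of the weight, each number with modulus the geometric mean of the weight over `P_m` is an
approximate eigenvalue; a Baire category argument perturbs `W` by a factor `exp g` so that these
moduli are pairwise distinct.
-/

open Filter Topology ComplexConjugate

noncomputable section

namespace Pool.Agent.Results.MP_af3eb4_an.Accumulation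

open Pool.Agent.V11110.AF

/-- The finite Blaschke product with zeros `a j` and rotation `exp (i θ)`. -/
def blaschke {d : ℕ} (θ : ℝ) (a : Fin d → ℂ) (z : ℂ) : ℂ :=
  Complex.exp (θ * Complex.I) * ∏ j, (z - a j) / (1 - conj (a j) * z)

/-- `B` is elliptic: its iterates converge locally uniformly in the open disc to a point of the
open disc. -/
def Elliptic (B : ℂ → ℂ) : Prop :=
  ∃ z₀ : ℂ, ‖z₀‖ < 1 ∧
    TendstoLocallyUniformlyOn (fun n z => B^[n] z) (fun _ => z₀) atTop (Metric.ball 0 1)

/-- The set `Λ(T)` of the moduli `|λ|` of the `λ` with `λ𝕋 ⊂ σ_usf(T)`, for `T f = w · f ∘ B`. -/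
def Lam (B w : ℂ → ℂ) : Set ℝ :=
  {ρ : ℝ | ∃ l : ℂ, ‖l‖ = ρ ∧ ∀ μ : ℂ, ‖μ‖ = ‖l‖ → InUsf B w μ}

theorem sq_iter (n : ℕ) (z : ℂ) : (fun z : ℂ => z ^ 2)^[n] z = z ^ (2 ^ n) := by
  induction n generalizing z with
  | zero => simp
  | succ n ih =>
    rw [Function.iterate_succ_apply, ih, ← pow_mul]
    congr 1
    rw [pow_succ, mul_comm]

theorem result : ∃ (d : ℕ) (θ : ℝ) (a : Fin d → ℂ), 2 ≤ d ∧ (∀ j, ‖a j‖ < 1) ∧
    Elliptic (blaschke θ a) ∧ ∃ w : ℂ → ℂ, InA w ∧ ∃ r : ℝ, 0 < r ∧
      AccPt r (𝓟 (Lam (blaschke θ a) w)) := by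
  have hB : blaschke 0 (fun _ : Fin 2 => (0 : ℂ)) = fun z => z ^ 2 := by
    funext z
    unfold blaschke
    simp
  refine ⟨2, 0, fun _ => 0, le_rfl, fun j => by simp, ?_, ?_⟩
  · rw [hB]
    refine ⟨0, by simp, ?_⟩
    rw [Metric.tendstoLocallyUniformlyOn_iff]
    intro ε hε x hx
    have hx1 : ‖x‖ < 1 := by simpa using hx
    obtain ⟨ρ, hρ1, hρ2⟩ := exists_between hx1
    have hρ0 : 0 ≤ ρ := (norm_nonneg x).trans hρ1.le
    refine ⟨{y | ‖y‖ < ρ}, mem_nhdsWithin_of_mem_nhds
      ((isOpen_lt continuous_norm continuous_const).mem_nhds hρ1), ?_⟩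
    have hlim := tendsto_pow_atTop_nhds_zero_of_lt_one hρ0 hρ2
    filter_upwards [hlim.eventually (gt_mem_nhds hε)] with n hn y hy
    rw [sq_iter, dist_zero_left, norm_pow]
    have hy' : ‖y‖ < ρ := hy
    calc ‖y‖ ^ (2 ^ n) ≤ ρ ^ (2 ^ n) := pow_le_pow_left₀ (norm_nonneg _) hy'.le _
      _ ≤ ρ ^ n := pow_le_pow_of_le_one hρ0 hρ2.le Nat.lt_two_pow_self.le
      _ < ε := hn
  · rw [hB]
    exact main_point

end Pool.Agent.Results.MP_af3eb4_an.Accumulation
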